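import Mathlib

set_option autoImplicit false

/-!
# No equivalent norm on `ℓ^∞` is locally uniformly convex
-/

open Filter Topology
open scoped ENNReal

namespace Pool.Agent.N318.LinfLUR

/-- Real bounded sequences. -/
abbrev X : Type := lp (fun _ : ℕ => ℝ) ⊤

theorem norm_le_one_iff (z : X) : ‖z‖ ≤ 1 ↔ ∀ n, |z n| ≤ 1 := by
  constructor
  · intro h n
    have := lp.norm_apply_le_norm (by simp : (⊤ : ℝ≥0∞) ≠ 0) z n
    rw [Real.norm_eq_abs] at this
    linarith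
  · intro h
    refine lp.norm_le_of_forall_le zero_le_one fun n => ?_
    rw [Real.norm_eq_abs]
    exact h n

/-- The element of `ℓ^∞` given by a sequence bounded by one. -/
noncomputable def mk (z : ℕ → ℝ) (h : ∀ n, |z n| ≤ 1) : X :=
  ⟨z, memℓp_infty_iff.2 ⟨1, by rintro _ ⟨n, rfl⟩; simpa using h n⟩⟩

theorem mk_apply (z : ℕ → ℝ) (h : ∀ n, |z n| ≤ 1) (n : ℕ) : mk z h n = z n := rfl

theorem mk_norm (z : ℕ → ℝ) (h : ∀ n, |z n| ≤ 1) : ‖mk z h‖ ≤ 1 :=
  (norm_le_one_iff _).2 h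

/-- An infinite set of naturals splits into infinitely many infinite pieces. -/
theorem split (A : Set ℕ) (hA : A.Infinite) :
    ∃ P : ℕ → Set ℕ, (∀ i, P i ⊆ A) ∧ (∀ i, (P i).Infinite) ∧
      ∀ i j n, n ∈ P i → n ∈ P j → i = j := by
  obtain ⟨e⟩ : Nonempty (ℕ ↪ A) := ⟨hA.natEmbedding⟩
  refine ⟨fun i => Set.range fun j => (e (Nat.pair i j) : ℕ), ?_, ?_, ?_⟩
  · rintro i _ ⟨j, rfl⟩
    exact (e _).2
  · intro i
    refine Set.infinite_range_of_injective ?_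
    intro j k hjk
    have := e.injective (Subtype.ext hjk)
    simpa using this
  · rintro i j n ⟨a, ha⟩ ⟨b, hb⟩
    have h1 : (e (Nat.pair i a) : ℕ) = e (Nat.pair j b) := by
      simpa using ha.trans hb.symm
    have := e.injective (Subtype.ext h1)
    simp only [Nat.pair_eq_pair] at this
    exact this.1

/-- A bounded functional is small on an infinite piece. -/
theorem small_piece (φ : X →ₗ[ℝ] ℝ) (C : ℝ) (hφ : ∀ z, φ z ≤ C * ‖z‖) (A : Set ℕ)
    (hA : A.Infinite) (ε : ℝ) (hε : 0 < ε) :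
    ∃ A' : Set ℕ, A' ⊆ A ∧ A'.Infinite ∧
      ∀ z : X, ‖z‖ ≤ 1 → (∀ n, n ∉ A' → z n = 0) → φ z ≤ ε := by
  obtain ⟨P, hPA, hPi, hPd⟩ := split A hA
  by_contra hcon
  push Not at hcon
  have h1 : ∀ i, ∃ z : X, ‖z‖ ≤ 1 ∧ (∀ n, n ∉ P i → z n = 0) ∧ ε < φ z :=
    fun i => hcon (P i) (hPA i) (hPi i)
  choose z hz1 hz2 hz3 using h1
  have hC : 0 ≤ C := by
    have h2 := hφ (z 0)
    have h3 := hz3 0
    have h4 := norm_nonneg (z 0)
    by_contra hneg
    push Not at hneg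
    nlinarith
  obtain ⟨m, hm⟩ := exists_nat_gt (C / ε)
  have h5 : ‖∑ i ∈ Finset.range m, z i‖ ≤ 1 := by
    rw [norm_le_one_iff]
    intro n
    rw [lp.coeFn_sum, Finset.sum_apply]
    by_cases hn : ∃ i ∈ Finset.range m, n ∈ P i
    · obtain ⟨i, hi, hni⟩ := hn
      rw [Finset.sum_eq_single_of_mem i hi]
      · exact (norm_le_one_iff _).1 (hz1 i) n
      · intro j _ hji
        exact hz2 j n fun hnj => hji (hPd j i n hnj hni)
    · push Not at hn
      rw [Finset.sum_eq_zero fun i hi => hz2 i n (hn i hi)]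
      simp
  have h6 : φ (∑ i ∈ Finset.range m, z i) ≥ m * ε := by
    rw [map_sum]
    calc (m : ℝ) * ε = ∑ i ∈ Finset.range m, ε := by simp
      _ ≤ ∑ i ∈ Finset.range m, φ (z i) := Finset.sum_le_sum fun i _ => (hz3 i).le
  have h7 := hφ (∑ i ∈ Finset.range m, z i)
  have h8 : C * ‖∑ i ∈ Finset.range m, z i‖ ≤ C * 1 := mul_le_mul_of_nonneg_left h5 hC
  rw [div_lt_iff₀ hε] at hm
  linarith

/-- Supporting functional of a seminorm at a point. -/
theorem support (p : Seminorm ℝ X) (y : X) : ∃ φ : X →ₗ[ℝ] ℝ, (∀ z, φ z ≤ p z) ∧ φ y = p y := by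
  by_cases hy : y = 0
  · exact ⟨0, fun z => apply_nonneg p z, by simp [hy]⟩
  · obtain ⟨g, hg1, hg2⟩ := exists_extension_of_le_sublinear
      (LinearPMap.mkSpanSingleton (K := ℝ) y (p y) hy) p
      (fun c hc x => by rw [map_smul_eq_mul, Real.norm_eq_abs, abs_of_pos hc])
      (fun x y => map_add_le_add p x y)
      (by
        rintro ⟨x, hx⟩
        obtain ⟨c, rfl⟩ := Submodule.mem_span_singleton.1 hx
        rw [LinearPMap.mkSpanSingleton'_apply, map_smul_eq_mul, smul_eq_mul, Real.norm_eq_abs]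
        exact mul_le_mul_of_nonneg_right (le_abs_self c) (apply_nonneg p y))
    refine ⟨g, hg2, ?_⟩
    have := hg1 ⟨y, Submodule.mem_span_singleton_self y⟩
    rw [this]
    exact LinearPMap.mkSpanSingleton_apply ℝ ℝ hy (p y)

/-- The set of elements of the unit ball agreeing with `y` off `A`. -/
def D (y : X) (A : Set ℕ) : Set X := {z | ‖z‖ ≤ 1 ∧ ∀ n, n ∉ A → z n = y n}

/-- One step. -/
theorem step (p : Seminorm ℝ X) (C : ℝ) (hC : ∀ z, p z ≤ C * ‖z‖) (y : X) (hy : ‖y‖ ≤ 1)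
    (A : Set ℕ) (hA : A.Infinite) (ε : ℝ) (hε : 0 < ε) :
    ∃ (y' : X) (A' : Set ℕ), y' ∈ D y A ∧ A' ⊆ A ∧ A'.Infinite ∧ (∀ z ∈ D y A, p z ≤ p y' + ε) ∧
      ∃ φ : X →ₗ[ℝ] ℝ, (∀ z, φ z ≤ p z) ∧ φ y' = p y' ∧
        ∀ z : X, ‖z‖ ≤ 1 → (∀ n, n ∉ A' → z n = 0) → φ z ≤ ε := by
  have hC0 : 0 ≤ C ∨ C < 0 := le_or_gt 0 C
  have hbdd : BddAbove (p '' D y A) := by
    refine ⟨|C|, ?_⟩
    rintro _ ⟨z, hz, rfl⟩
    calc p z ≤ C * ‖z‖ := hC z
      _ ≤ |C| * ‖z‖ := mul_le_mul_of_nonneg_right (le_abs_self C) (norm_nonneg z)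
      _ ≤ |C| * 1 := mul_le_mul_of_nonneg_left hz.1 (abs_nonneg C)
      _ = |C| := mul_one _
  have hne : (p '' D y A).Nonempty := ⟨p y, y, ⟨hy, fun _ _ => rfl⟩, rfl⟩
  obtain ⟨_, ⟨y', hy', rfl⟩, hlt⟩ := exists_lt_of_lt_csSup hne
    (show sSup (p '' D y A) - ε < sSup (p '' D y A) by linarith)
  obtain ⟨φ, hφ1, hφ2⟩ := support p y'
  obtain ⟨A', h1, h2, h3⟩ := small_piece φ C (fun z => (hφ1 z).trans (hC z)) A hA ε hε
  refine ⟨y', A', hy', h1, h2, fun z hz => ?_, φ, hφ1, hφ2, h3⟩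
  have := le_csSup hbdd ⟨z, hz, rfl⟩
  linarith

/-- State of the recursion. -/
structure St where
  y : X
  A : Set ℕ
  hy : ‖y‖ ≤ 1
  hA : A.Infinite

theorem main (p : Seminorm ℝ X) (C : ℝ) (hC : ∀ z, p z ≤ C * ‖z‖) :
    ∃ (x : X) (w : ℕ → X), (∀ j, 1 ≤ ‖w j - x‖) ∧ Tendsto (fun j => p (w j)) atTop (𝓝 (p x)) ∧
      Tendsto (fun j => p (w j + x)) atTop (𝓝 (2 * p x)) := by
  have hstep : ∀ (k : ℕ) (s : St), ∃ s' : St, s'.y ∈ D s.y s.A ∧ s'.A ⊆ s.A ∧
      (∀ z ∈ D s.y s.A, p z ≤ p s'.y + 1 / ((k : ℝ) + 1)) ∧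
      ∃ φ : X →ₗ[ℝ] ℝ, (∀ z, φ z ≤ p z) ∧ φ s'.y = p s'.y ∧
        ∀ z : X, ‖z‖ ≤ 1 → (∀ n, n ∉ s'.A → z n = 0) → φ z ≤ 1 / ((k : ℝ) + 1) := by
    intro k s
    obtain ⟨y', A', h1, h2, h3, h4, h5⟩ := step p C hC s.y s.hy s.A s.hA (1 / ((k : ℝ) + 1))
      (by positivity)
    exact ⟨⟨y', A', h1.1, h3⟩, h1, h2, h4, h5⟩
  choose F hF1 hF2 hF3 φ hφ1 hφ2 hφ3 using hstep
  let s : ℕ → St := fun k => Nat.rec ⟨0, Set.univ, by simp, Set.infinite_univ⟩ (fun k s => F k s) k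
  have hs : ∀ k, s (k + 1) = F k (s k) := fun k => rfl
  have hAmono : ∀ k m, k ≤ m → (s m).A ⊆ (s k).A := by
    intro k m hkm
    induction m, hkm using Nat.le_induction with
    | base => exact subset_rfl
    | succ m _ ih => rw [hs]; exact (hF2 m (s m)).trans ih
  have hyeq : ∀ k m, k ≤ m → ∀ n, n ∉ (s k).A → (s m).y n = (s k).y n := by
    intro k m hkm
    induction m, hkm using Nat.le_induction with
    | base => intro n _; rfl
    | succ m hkm ih =>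
      intro n hn
      rw [← ih n hn, hs]
      exact (hF1 m (s m)).2 n fun h => hn (hAmono k m hkm h)
  -- the limit
  classical
  let xf : ℕ → ℝ := fun n => if h : ∃ k, n ∉ (s k).A then (s (Nat.find h)).y n else 0
  have hxf : ∀ n, |xf n| ≤ 1 := by
    intro n
    by_cases h : ∃ k, n ∉ (s k).A
    · simp only [xf, dif_pos h]
      exact (norm_le_one_iff _).1 (s _).hy n
    · simp only [xf, dif_neg h]
      simp
  have hxk : ∀ k n, n ∉ (s k).A → xf n = (s k).y n := by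
    intro k n hn
    have h : ∃ k, n ∉ (s k).A := ⟨k, hn⟩
    simp only [xf, dif_pos h]
    exact (hyeq _ k (Nat.find_min' h hn) n (Nat.find_spec h)).symm
  let wf : ℕ → ℕ → ℝ := fun j n => if n ∈ (s (j + 1)).A then (if 0 ≤ xf n then -1 else 1) else xf n
  have hwf : ∀ j n, |wf j n| ≤ 1 := by
    intro j n
    simp only [wf]
    split_ifs
    · simp
    · simp
    · exact hxf n
  -- estimates on `D`
  have hD : ∀ k, ∀ z ∈ D (s (k + 1)).y (s (k + 1)).A,
      p (s (k + 1)).y - 2 * (1 / ((k : ℝ) + 1)) ≤ φ k (s k) z ∧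
      p z ≤ p (s (k + 1)).y + 1 / ((k : ℝ) + 1) := by
    intro k z hz
    constructor
    · have h1 := hφ3 k (s k) ((1 / 2 : ℝ) • ((s (k + 1)).y - z)) (by
        rw [norm_smul]
        have h2 := norm_sub_le (s (k + 1)).y z
        have h3 := (s (k + 1)).hy
        have h4 := hz.1
        rw [Real.norm_eq_abs, abs_of_pos (by norm_num : (0 : ℝ) < 1 / 2)]
        linarith) (by
        intro n hn
        rw [← hs] at hn
        rw [lp.coeFn_smul, Pi.smul_apply, lp.coeFn_sub, Pi.sub_apply, hz.2 n hn]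
        simp)
      rw [map_smul, map_sub, smul_eq_mul] at h1
      have h2 := hφ2 k (s k)
      rw [← hs] at h2
      linarith
    · rw [hs k]
      refine hF3 k (s k) z ⟨hz.1, fun n hn => ?_⟩
      rw [hz.2 n (fun h => hn (hAmono k (k + 1) (Nat.le_succ k) h))]
      exact hyeq k (k + 1) (Nat.le_succ k) n hn
  have hxD : ∀ k, mk xf hxf ∈ D (s k).y (s k).A := fun k =>
    ⟨mk_norm _ _, fun n hn => hxk k n hn⟩
  have hwD : ∀ j, mk (wf j) (hwf j) ∈ D (s (j + 1)).y (s (j + 1)).A := fun j =>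
    ⟨mk_norm _ _, fun n hn => by
      rw [mk_apply]
      simp only [wf, if_neg hn]
      exact hxk (j + 1) n hn⟩
  have hlim : Tendsto (fun j : ℕ => 1 / ((j : ℝ) + 1)) atTop (𝓝 0) :=
    tendsto_one_div_add_atTop_nhds_zero_nat
  refine ⟨mk xf hxf, fun j => mk (wf j) (hwf j), ?_, ?_, ?_⟩
  · intro j
    obtain ⟨n, hn⟩ := (s (j + 1)).hA.nonempty
    have h1 := lp.norm_apply_le_norm (by simp : (⊤ : ℝ≥0∞) ≠ 0)
      (mk (wf j) (hwf j) - mk xf hxf) n
    refine le_trans ?_ h1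
    rw [lp.coeFn_sub, Pi.sub_apply, mk_apply, mk_apply, Real.norm_eq_abs]
    simp only [wf, if_pos hn]
    split_ifs with h
    · rw [abs_of_nonpos (by linarith)]
      linarith
    · rw [abs_of_nonneg (by linarith)]
      linarith
  · have hb : ∀ j : ℕ, |p (mk (wf j) (hwf j)) - p (mk xf hxf)| ≤ 3 * (1 / ((j : ℝ) + 1)) := by
      intro j
      obtain ⟨h1, h2⟩ := hD j _ (hxD (j + 1))
      obtain ⟨h3, h4⟩ := hD j _ (hwD j)
      have h5 := hφ1 j (s j) (mk xf hxf)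
      have h6 := hφ1 j (s j) (mk (wf j) (hwf j))
      rw [abs_le]
      constructor <;> linarith
    have h0 : Tendsto (fun j : ℕ => 3 * (1 / ((j : ℝ) + 1))) atTop (𝓝 0) := by
      simpa using hlim.const_mul 3
    have := squeeze_zero_norm (f := fun j => p (mk (wf j) (hwf j)) - p (mk xf hxf))
      (fun j => by rw [Real.norm_eq_abs]; exact hb j) h0
    have h1 := this.add_const (p (mk xf hxf))
    simpa using h1
  · have hb : ∀ j : ℕ, |p (mk (wf j) (hwf j) + mk xf hxf) - 2 * p (mk xf hxf)| ≤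
        6 * (1 / ((j : ℝ) + 1)) := by
      intro j
      obtain ⟨h1, h2⟩ := hD j _ (hxD (j + 1))
      obtain ⟨h3, h4⟩ := hD j _ (hwD j)
      have h5 := hφ1 j (s j) (mk (wf j) (hwf j) + mk xf hxf)
      rw [map_add] at h5
      have h6 := map_add_le_add p (mk (wf j) (hwf j)) (mk xf hxf)
      have h7 := hφ1 j (s j) (mk xf hxf)
      have h8 : 0 ≤ 1 / ((j : ℝ) + 1) := by positivity
      rw [abs_le]
      constructor <;> linarith
    have h0 : Tendsto (fun j : ℕ => 6 * (1 / ((j : ℝ) + 1))) atTop (𝓝 0) := by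
      simpa using hlim.const_mul 6
    have := squeeze_zero_norm (f := fun j => p (mk (wf j) (hwf j) + mk xf hxf) - 2 * p (mk xf hxf))
      (fun j => by rw [Real.norm_eq_abs]; exact hb j) h0
    have h1 := this.add_const (2 * p (mk xf hxf))
    simpa using h1

/-- The embedding of the real `ℓ^∞` into the `ℓ^∞` over `𝕜`. -/
noncomputable def emb (𝕜 : Type) [RCLike 𝕜] (z : X) : lp (fun _ : ℕ => 𝕜) ⊤ :=
  ⟨fun n => ((z n : ℝ) : 𝕜), memℓp_infty_iff.2 ⟨‖z‖, by
    rintro _ ⟨n, rfl⟩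
    simpa using lp.norm_apply_le_norm (by simp : (⊤ : ℝ≥0∞) ≠ 0) z n⟩⟩

theorem emb_apply (𝕜 : Type) [RCLike 𝕜] (z : X) (n : ℕ) : emb 𝕜 z n = ((z n : ℝ) : 𝕜) := rfl

theorem emb_norm (𝕜 : Type) [RCLike 𝕜] (z : X) : ‖emb 𝕜 z‖ = ‖z‖ := by
  refine le_antisymm ?_ ?_
  · refine lp.norm_le_of_forall_le (norm_nonneg z) fun n => ?_
    rw [emb_apply, RCLike.norm_ofReal, ← Real.norm_eq_abs]
    exact lp.norm_apply_le_norm (by simp : (⊤ : ℝ≥0∞) ≠ 0) z n
  · refine lp.norm_le_of_forall_le (norm_nonneg _) fun n => ?_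
    have := lp.norm_apply_le_norm (by simp : (⊤ : ℝ≥0∞) ≠ 0) (emb 𝕜 z) n
    rwa [emb_apply, RCLike.norm_ofReal, ← Real.norm_eq_abs] at this

theorem emb_add (𝕜 : Type) [RCLike 𝕜] (z w : X) : emb 𝕜 (z + w) = emb 𝕜 z + emb 𝕜 w := by
  ext n
  rw [lp.coeFn_add, Pi.add_apply, emb_apply, emb_apply, emb_apply, lp.coeFn_add, Pi.add_apply]
  push_cast
  rfl

theorem emb_smul (𝕜 : Type) [RCLike 𝕜] (c : ℝ) (z : X) :
    emb 𝕜 (c • z) = (c : 𝕜) • emb 𝕜 z := by
  ext n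
  rw [lp.coeFn_smul, Pi.smul_apply, emb_apply, emb_apply, lp.coeFn_smul, Pi.smul_apply]
  simp

theorem emb_sub (𝕜 : Type) [RCLike 𝕜] (z w : X) : emb 𝕜 (z - w) = emb 𝕜 z - emb 𝕜 w := by
  have h := emb_add 𝕜 (z - w) w
  rw [sub_add_cancel] at h
  rw [h, add_sub_cancel_right]

/-- A seminorm on a space containing `ℓ^∞` isometrically which is equivalent to the norm is not
locally uniformly convex. -/
theorem not_lur (𝕜 : Type) [RCLike 𝕜] {E : Type*} [NormedAddCommGroup E] [NormedSpace 𝕜 E]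
    (T : lp (fun _ : ℕ => 𝕜) ⊤ →ₗ[𝕜] E) (hT : ∀ z, ‖T z‖ = ‖z‖)
    (p : Seminorm 𝕜 E) (c C : ℝ) (hc : 0 < c) (hcp : ∀ x, c * ‖x‖ ≤ p x)
    (hCp : ∀ x, p x ≤ C * ‖x‖)
    (hlur : ∀ (x : E) (xs : ℕ → E), p x = 1 → (∀ n, p (xs n) = 1) →
      Tendsto (fun n => p (xs n + x)) atTop (𝓝 2) →
      Tendsto (fun n => p (xs n - x)) atTop (𝓝 0)) : False := by
  let q : Seminorm ℝ X := Seminorm.of (fun z => p (T (emb 𝕜 z)))
    (fun z w => by
      rw [emb_add, map_add]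
      exact map_add_le_add p _ _)
    (fun a z => by
      rw [emb_smul, map_smul, map_smul_eq_mul, RCLike.norm_ofReal, Real.norm_eq_abs])
  have hq : ∀ z, q z = p (T (emb 𝕜 z)) := fun z => rfl
  obtain ⟨x, w, h1, h2, h3⟩ := main q C (fun z => by
    rw [hq, ← emb_norm 𝕜 z, ← hT (emb 𝕜 z)]
    exact hCp _)
  have hlow : ∀ z, c * ‖z‖ ≤ q z := fun z => by
    rw [hq, ← emb_norm 𝕜 z, ← hT (emb 𝕜 z)]
    exact hcp _
  -- `x` is not zero
  have hx : 0 < q x := by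
    rcases (apply_nonneg q x).lt_or_eq with h | h
    · exact h
    · exfalso
      have hx0 : x = 0 := by
        have := hlow x
        rw [← h] at this
        have h4 : ‖x‖ ≤ 0 := by
          by_contra hneg
          push Not at hneg
          nlinarith
        exact norm_le_zero_iff.1 h4
      rw [← h] at h2
      have h5 : ∀ j, c ≤ q (w j) := fun j => by
        have h6 := h1 j
        rw [hx0, sub_zero] at h6
        nlinarith [hlow (w j)]
      have h7 := ge_of_tendsto' h2 h5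
      linarith
  -- eventually `w j` is not zero
  have hev : ∀ᶠ j in atTop, q x / 2 < q (w j) := h2.eventually (lt_mem_nhds (by linarith))
  obtain ⟨N, hN⟩ := eventually_atTop.1 hev
  let W : ℕ → X := fun j => w (j + N)
  have hW : ∀ j, 0 < q (W j) := fun j => by
    have := hN (j + N) (by omega)
    change 0 < q (w (j + N))
    linarith
  have hW1 : ∀ j, 1 ≤ ‖W j - x‖ := fun j => h1 _
  have hW2 : Tendsto (fun j => q (W j)) atTop (𝓝 (q x)) :=
    h2.comp (tendsto_add_atTop_nat N)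
  have hW3 : Tendsto (fun j => q (W j + x)) atTop (𝓝 (2 * q x)) :=
    h3.comp (tendsto_add_atTop_nat N)
  -- the normalised vectors
  let u : X := (q x)⁻¹ • x
  let v : ℕ → X := fun j => (q (W j))⁻¹ • W j
  have hu : q u = 1 := by
    simp only [u]
    rw [map_smul_eq_mul, Real.norm_eq_abs, abs_of_pos (inv_pos.2 hx), inv_mul_cancel₀ hx.ne']
  have hv : ∀ j, q (v j) = 1 := fun j => by
    simp only [v]
    rw [map_smul_eq_mul, Real.norm_eq_abs, abs_of_pos (inv_pos.2 (hW j)),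
      inv_mul_cancel₀ (hW j).ne']
  have hinv : Tendsto (fun j => (q (W j))⁻¹) atTop (𝓝 (q x)⁻¹) := hW2.inv₀ hx.ne'
  have hdiff : Tendsto (fun j => |(q (W j))⁻¹ - (q x)⁻¹| * q (W j)) atTop (𝓝 0) := by
    have h8 : Tendsto (fun j => (q (W j))⁻¹ - (q x)⁻¹) atTop (𝓝 0) := by
      simpa using hinv.sub_const (q x)⁻¹
    simpa using h8.abs.mul hW2
  have hscale : ∀ j, q (v j - (q x)⁻¹ • W j) = |(q (W j))⁻¹ - (q x)⁻¹| * q (W j) := fun j => by
    simp only [v]
    rw [← sub_smul, map_smul_eq_mul, Real.norm_eq_abs]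
  have hsum : Tendsto (fun j => q (v j + u)) atTop (𝓝 2) := by
    have h9 : Tendsto (fun j => (q x)⁻¹ * q (W j + x)) atTop (𝓝 2) := by
      have := hW3.const_mul (q x)⁻¹
      rwa [show (q x)⁻¹ * (2 * q x) = 2 by field_simp] at this
    have h10 : ∀ j, |q (v j + u) - (q x)⁻¹ * q (W j + x)| ≤
        |(q (W j))⁻¹ - (q x)⁻¹| * q (W j) := fun j => by
      rw [← hscale j]
      have h11 : (q x)⁻¹ * q (W j + x) = q ((q x)⁻¹ • (W j + x)) := by
        rw [map_smul_eq_mul, Real.norm_eq_abs, abs_of_pos (inv_pos.2 hx)]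
      rw [h11]
      have h12 := abs_sub_map_le_sub q (v j + u) ((q x)⁻¹ • (W j + x))
      have h13 : v j + u - (q x)⁻¹ • (W j + x) = v j - (q x)⁻¹ • W j := by
        simp only [u, smul_add]
        abel
      rwa [h13] at h12
    have h14 := squeeze_zero_norm (f := fun j => q (v j + u) - (q x)⁻¹ * q (W j + x))
      (fun j => by rw [Real.norm_eq_abs]; exact h10 j) hdiff
    simpa using h14.add h9
  have hfin := hlur (T (emb 𝕜 u)) (fun j => T (emb 𝕜 (v j))) hu hv (by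
    refine hsum.congr fun j => ?_
    rw [hq, emb_add, map_add])
  have hfin2 : Tendsto (fun j => q (v j - u)) atTop (𝓝 0) := by
    refine hfin.congr fun j => ?_
    rw [hq, emb_sub, map_sub T]
  have hlb : ∀ j, c * (q x)⁻¹ ≤ q (v j - u) + |(q (W j))⁻¹ - (q x)⁻¹| * q (W j) := fun j => by
    rw [← hscale j]
    have h15 : (q x)⁻¹ * q (W j - x) ≤ q (v j - u) + q (v j - (q x)⁻¹ • W j) := by
      have h16 : (q x)⁻¹ * q (W j - x) = q ((q x)⁻¹ • (W j - x)) := by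
        rw [map_smul_eq_mul, Real.norm_eq_abs, abs_of_pos (inv_pos.2 hx)]
      rw [h16]
      have h17 : (q x)⁻¹ • (W j - x) = (v j - u) - (v j - (q x)⁻¹ • W j) := by
        simp only [u, smul_sub]
        abel
      rw [h17]
      exact map_sub_le_add q _ _
    refine le_trans ?_ h15
    rw [mul_comm c]
    refine mul_le_mul_of_nonneg_left ?_ (inv_pos.2 hx).le
    calc c = c * 1 := (mul_one c).symm
      _ ≤ c * ‖W j - x‖ := mul_le_mul_of_nonneg_left (hW1 j) hc.le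
      _ ≤ q (W j - x) := hlow _
  have hlim0 : Tendsto (fun j => q (v j - u) + |(q (W j))⁻¹ - (q x)⁻¹| * q (W j)) atTop (𝓝 0) := by
    simpa using hfin2.add hdiff
  have h18 := ge_of_tendsto' hlim0 hlb
  have h19 : 0 < c * (q x)⁻¹ := mul_pos hc (inv_pos.2 hx)
  linarith

end Pool.Agent.N318.LinfLUR
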